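import Mathlib

/-! Friends-and-strangers graphs `FS(T, Y)` of trees `T` can have components whose diameter is
not polynomially bounded: `T` is a broom (a star with a long handle) and `Y` is the incidence graph
of points and non-vertical lines of the affine plane over `ZMod p`. -/

namespace Pool.Agent.Results.MP_5b8c2d_co.BroomDiameters

/-- The friends-and-strangers graph `FS(X, Y)`: vertices are the bijections `V → W`, two of them
adjacent when they differ by the exchange of the images of two adjacent vertices `a`, `b` of `X`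
whose images are adjacent in `Y`. -/
def FS {V W : Type} (X : SimpleGraph V) (Y : SimpleGraph W) : SimpleGraph (V ≃ W) where
  Adj σ τ := ∃ a b : V, X.Adj a b ∧ Y.Adj (σ a) (σ b) ∧ τ a = σ b ∧ τ b = σ a ∧
    ∀ v, v ≠ a → v ≠ b → τ v = σ v
  symm := ⟨by
    rintro σ τ ⟨a, b, hab, hY, h1, h2, h3⟩
    refine ⟨a, b, hab, ?_, h2.symm, h1.symm, fun v ha hb => (h3 v ha hb).symm⟩
    rw [h1, h2]
    exact hY.symm⟩
  loopless := ⟨by
    rintro σ ⟨a, b, hab, hY, h1, -, -⟩
    rw [← h1] at hY
    exact hY.ne rfl⟩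

section General

variable {V W : Type} {T : SimpleGraph V} {Y : SimpleGraph W}

theorem step {σ τ : V ≃ W} (h : (FS T Y).Adj σ τ) (v : V) (hv : τ v ≠ σ v) :
    ∃ b, T.Adj v b ∧ σ b = τ v ∧ τ b = σ v ∧ Y.Adj (σ v) (τ v) := by
  obtain ⟨a, b, hab, hY, h1, h2, h3⟩ := h
  by_cases ha : v = a
  · subst ha
    exact ⟨b, hab, h1.symm, h2, by rw [h1]; exact hY⟩
  by_cases hb : v = b
  · subst hb
    exact ⟨a, hab.symm, h2.symm, h1, by rw [h2]; exact hY.symm⟩
  exact absurd (h3 v ha hb) hv

theorem last_ne {α : Type} (x : ℕ → α) (v : α) (s : ℕ) (h1 : x s ≠ v) :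
    ∀ e, s ≤ e → x e = v → ∃ t, s ≤ t ∧ t < e ∧ x t ≠ v ∧ ∀ r, t < r → r ≤ e → x r = v := by
  intro e
  induction e with
  | zero =>
    intro hs h
    obtain rfl : s = 0 := by omega
    exact absurd h h1
  | succ e ih =>
    intro hs h
    have hse : s ≤ e := by
      rcases Nat.lt_or_ge e s with h' | h'
      · obtain rfl : s = e + 1 := by omega
        exact absurd h h1
      · exact h'
    by_cases he : x e = v
    · obtain ⟨t, h2, h3, h4, h5⟩ := ih hse he
      refine ⟨t, h2, by omega, h4, fun r hr hr' => ?_⟩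
      rcases Nat.lt_or_ge e r with h' | h'
      · obtain rfl : r = e + 1 := by omega
        exact h
      · exact h5 r hr h'
    · refine ⟨e, hse, by omega, he, fun r hr hr' => ?_⟩
      obtain rfl : r = e + 1 := by omega
      exact h

theorem first_true (p : ℕ → Prop) (s : ℕ) (h1 : ¬ p s) :
    ∀ e, s ≤ e → p e → ∃ t, s ≤ t ∧ t < e ∧ p (t + 1) ∧ ∀ r, s ≤ r → r ≤ t → ¬ p r := by
  intro e
  induction e with
  | zero =>
    intro hs h
    obtain rfl : s = 0 := by omega
    exact absurd h h1
  | succ e ih =>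
    intro hs h
    have hse : s ≤ e := by
      rcases Nat.lt_or_ge e s with h' | h'
      · obtain rfl : s = e + 1 := by omega
        exact absurd h h1
      · exact h'
    by_cases he : ∃ r, s ≤ r ∧ r ≤ e ∧ p r
    · obtain ⟨r, hr1, hr2, hr3⟩ := he
      clear ih
      classical
      have hex : ∃ r, s ≤ r ∧ p r := ⟨r, hr1, hr3⟩
      have hf := Nat.find_spec hex
      have hmin := fun m hm => Nat.find_min hex (m := m) hm
      have hle : Nat.find hex ≤ r := Nat.find_min' hex ⟨hr1, hr3⟩
      have hgt : s < Nat.find hex := by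
        rcases Nat.lt_or_ge s (Nat.find hex) with h' | h'
        · exact h'
        · have : s = Nat.find hex := le_antisymm hf.1 h'
          rw [this] at h1
          exact absurd hf.2 h1
      refine ⟨Nat.find hex - 1, by omega, by omega, ?_, fun q hq1 hq2 hq => ?_⟩
      · rw [Nat.sub_add_cancel (by omega)]
        exact hf.2
      · exact hmin q (by omega) ⟨hq1, hq⟩
    · exact ⟨e, hse, by omega, h, fun r hr1 hr2 hr3 => he ⟨r, hr1, hr2, hr3⟩⟩

theorem bool3 {p q r : Bool} (h1 : p ≠ q) (h2 : q ≠ r) : p = r := by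
  revert h1 h2
  cases p <;> cases q <;> cases r <;> simp

/-- The lower bound: moving the label `P j` far away while `P (j + 1)` rests needs `2 ^ j` moves. -/
theorem lower (c : W → Bool) (hc : ∀ a b, Y.Adj a b → c a ≠ c b)
    (h4 : ∀ a b c d, a ≠ c → b ≠ d → Y.Adj a b → Y.Adj b c → Y.Adj c d → ¬ Y.Adj d a)
    (k : ℕ) (P : ℕ → V)
    (hP : ∀ j, 1 ≤ j → j ≤ k → ∀ b, T.Adj (P j) b → b = P (j - 1) ∨ (j + 1 ≤ k ∧ b = P (j + 1))) :
    ∀ j, j ≤ k → ∀ (f : ℕ → V ≃ W) (s e : ℕ), s ≤ e →
      (∀ t, s ≤ t → t < e → (FS T Y).Adj (f t) (f (t + 1))) →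
      (j < k → ∀ t, s ≤ t → t ≤ e → f t (P (j + 1)) = f s (P (j + 1))) →
      f s (P j) ≠ f e (P j) → ¬ Y.Adj (f s (P j)) (f e (P j)) → 2 ^ j ≤ e - s := by
  intro j
  induction j with
  | zero =>
    intro _ f s e hse _ _ hne _
    have : s ≠ e := by
      rintro rfl
      exact hne rfl
    simp only [pow_zero]
    omega
  | succ j ih =>
    intro hj f s e hse hadj hstat hne hnadj
    set x : ℕ → W := fun t => f t (P (j + 1)) with hx
    -- first time far away from the start
    obtain ⟨t', ht1, ht2, ht3, ht4⟩ := first_true (fun r => x s ≠ x r ∧ ¬ Y.Adj (x s) (x r)) s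
      (fun h => h.1 rfl) e hse ⟨hne, hnadj⟩
    have hne' : x (t' + 1) ≠ x t' := by
      intro h
      rw [h] at ht3
      exact ht4 t' ht1 le_rfl ht3
    -- partners
    have partner : ∀ t, s ≤ t → t < e → x (t + 1) ≠ x t →
        f t (P j) = x (t + 1) ∧ f (t + 1) (P j) = x t ∧ Y.Adj (x t) (x (t + 1)) := by
      intro t h1 h2 h3
      obtain ⟨b, hb1, hb2, hb3, hb4⟩ := step (hadj t h1 h2) (P (j + 1)) h3
      rcases hP (j + 1) (by omega) hj b hb1 with rfl | ⟨hk, rfl⟩
      · exact ⟨hb2, hb3, hb4⟩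
      · exfalso
        have e1 := hstat (by omega) t h1 (by omega)
        have e2 := hstat (by omega) (t + 1) (by omega) (by omega)
        rw [hb2] at e1
        rw [hb3] at e2
        exact h3 (e1.trans e2.symm)
    obtain ⟨q1, q2, q3⟩ := partner t' ht1 ht2 hne'
    have hva : x s ≠ x t' := by
      intro h
      rw [← h] at q3
      exact ht3.2 q3
    have hadjva : Y.Adj (x s) (x t') := by
      by_contra h
      exact ht4 t' ht1 le_rfl ⟨hva, h⟩
    obtain ⟨t, hs1, hs2, hs3, hs4⟩ := last_ne x (x t') s hva t' ht1 rfl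
    have hs5 : x (t + 1) = x t' := hs4 (t + 1) (by omega) (by omega)
    obtain ⟨r1, r2, r3⟩ := partner t hs1 (by omega) (by rw [hs5]; exact hs3.symm)
    set u := x t with hu
    set v := x t' with hv
    set w := x (t' + 1) with hw
    rw [hs5] at r1 r3
    have huw : u ≠ w := by
      intro h
      have := ht4 t hs1 (by omega)
      rw [← hu, h] at this
      exact this ht3
    have cuw : c u = c w := bool3 (hc _ _ r3) (hc _ _ q3)
    have huwn : ¬ Y.Adj u w := fun h => hc _ _ h cuw
    -- the walk of `P j` from `u` to `w`, avoiding `v`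
    set y : ℕ → W := fun t => f t (P j) with hy
    have hyv : ∀ r, t < r → r ≤ t' → y r ≠ v := by
      intro r h1 h2 h
      have h3 : x r = v := hs4 r h1 h2
      have h5 : P j = P (j + 1) := (f r).injective (h.trans h3.symm)
      -- `P j` and `P (j+1)` are different since they are at different places at time `t'`
      have h6 : y t' = x t' := by
        show f t' (P j) = f t' (P (j + 1))
        rw [h5]
      have h7 : y t' = w := q1
      rw [h7] at h6
      exact hne' h6
    have hyu : y (t + 1) = u := r2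
    have hyw : y t' = w := q1
    obtain ⟨a, ha1, ha2, ha3, ha4⟩ := first_true (fun r => u ≠ y r ∧ ¬ Y.Adj u (y r)) (t + 1)
      (fun h => h.1 hyu.symm) t' (by omega) (by
        show u ≠ y t' ∧ ¬ Y.Adj u (y t')
        rw [hyw]
        exact ⟨huw, huwn⟩)
    have hne2 : y (a + 1) ≠ y a := by
      intro h
      rw [h] at ha3
      exact ha4 a ha1 le_rfl ha3
    obtain ⟨b, hb1, hb2, hb3, hb4⟩ := step (hadj a (by omega) (by omega)) (P j) hne2
    have hb4' : Y.Adj (y a) (y (a + 1)) := hb4
    have hya : u ≠ y a := by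
      intro h
      rw [← h] at hb4'
      exact ha3.2 hb4'
    have hyadj : Y.Adj u (y a) := by
      by_contra h
      exact ha4 a ha1 le_rfl ⟨hya, h⟩
    have hz1 : y (a + 1) ≠ w := by
      intro h
      rw [h] at hb4'
      exact h4 u (y a) w v huw (hyv a (by omega) (by omega)) hyadj hb4' q3.symm r3.symm
    have hz2 : ¬ Y.Adj (y (a + 1)) w := by
      intro h
      exact hc _ _ h ((bool3 (hc _ _ hyadj) (hc _ _ hb4')).symm.trans cuw)
    have m1 : 2 ^ j ≤ (a + 1) - (t + 1) := by
      refine ih (by omega) f (t + 1) (a + 1) (by omega)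
        (fun r h1 h2 => hadj r (by omega) (by omega)) ?_ ?_ ?_
      · intro _ r h1 h2
        show x r = x (t + 1)
        rw [hs4 r (by omega) (by omega), hs5]
      · show y (t + 1) ≠ y (a + 1)
        rw [hyu]
        exact ha3.1
      · show ¬ Y.Adj (y (t + 1)) (y (a + 1))
        rw [hyu]
        exact ha3.2
    have m2 : 2 ^ j ≤ t' - (a + 1) := by
      refine ih (by omega) f (a + 1) t' (by omega)
        (fun r h1 h2 => hadj r (by omega) (by omega)) ?_ ?_ ?_
      · intro _ r h1 h2
        show x r = x (a + 1)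
        rw [hs4 r (by omega) (by omega), hs4 (a + 1) (by omega) (by omega)]
      · show y (a + 1) ≠ y t'
        rw [hyw]
        exact hz1
      · show ¬ Y.Adj (y (a + 1)) (y t')
        rw [hyw]
        exact hz2
    rw [pow_succ]
    omega

/-- One exchange. -/
theorem swap_adj {σ : V ≃ W} {a b : V} (hab : T.Adj a b) (hY : Y.Adj (σ a) (σ b)) :
    ∃ τ : V ≃ W, (FS T Y).Adj σ τ ∧ τ a = σ b ∧ τ b = σ a ∧
      ∀ v, v ≠ a → v ≠ b → τ v = σ v := by
  classical
  refine ⟨(Equiv.swap a b).trans σ, ⟨a, b, hab, hY, ?_, ?_, ?_⟩, ?_, ?_, ?_⟩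
  · simp
  · simp
  · intro v h1 h2
    simp [Equiv.swap_apply_of_ne_of_ne h1 h2]
  · simp
  · simp
  · intro v h1 h2
    simp [Equiv.swap_apply_of_ne_of_ne h1 h2]

/-- The label `P j` can be brought anywhere while the labels `P i` with `i > j` rest. -/
theorem reach (k : ℕ) (P : ℕ → V)
    (hPinj : ∀ i j, i ≤ k → j ≤ k → P i = P j → i = j)
    (hP2 : ∀ j, j < k → T.Adj (P j) (P (j + 1)))
    (hP3 : ∀ v, (∀ i, i ≤ k → v ≠ P i) → T.Adj (P 0) v)
    (hY : ∀ O : Finset W, O.card ≤ k → ∀ x y, x ∉ O → y ∉ O →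
      Relation.ReflTransGen (fun a b => Y.Adj a b ∧ b ∉ O) x y) :
    ∀ j, j ≤ k → ∀ (σ : V ≃ W) (y : W), (∀ i, j < i → i ≤ k → σ (P i) ≠ y) →
      ∃ τ, (FS T Y).Reachable σ τ ∧ τ (P j) = y ∧ ∀ i, j < i → i ≤ k → τ (P i) = σ (P i) := by
  classical
  have path : ∀ j, j ≤ k → ∀ (σ : V ≃ W) (y : W), (∀ i, j < i → i ≤ k → σ (P i) ≠ y) →
      Relation.ReflTransGen (fun a b => Y.Adj a b ∧ ∀ i, j < i → i ≤ k → σ (P i) ≠ b)
        (σ (P j)) y := by
    intro j hj σ y hy
    set O : Finset W := (Finset.Ioc j k).image (fun i => σ (P i)) with hO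
    have hmem : ∀ b, b ∉ O ↔ ∀ i, j < i → i ≤ k → σ (P i) ≠ b := by
      intro b
      rw [hO]
      simp only [Finset.mem_image, Finset.mem_Ioc, not_exists, not_and]
      exact ⟨fun h i h1 h2 => h i ⟨h1, h2⟩, fun h i h1 => h i h1.1 h1.2⟩
    have hcard : O.card ≤ k := by
      refine Finset.card_image_le.trans ?_
      simp
    have := hY O hcard (σ (P j)) y ((hmem _).2 fun i h1 h2 h => by
      have := hPinj _ _ h2 hj (σ.injective h)
      omega) ((hmem _).2 hy)
    have hle : (fun a b => Y.Adj a b ∧ b ∉ O) ≤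
        (fun a b => Y.Adj a b ∧ ∀ i, j < i → i ≤ k → σ (P i) ≠ b) :=
      fun a b h => ⟨h.1, (hmem b).1 h.2⟩
    exact Relation.ReflTransGen.mono hle _ _ this
  intro j
  induction j with
  | zero =>
    intro hj σ y hy
    have h := path 0 hj σ y hy
    clear hy
    induction h with
    | refl => exact ⟨σ, SimpleGraph.Reachable.refl _, rfl, fun _ _ _ => rfl⟩
    | @tail y' y _ hstep ih =>
      obtain ⟨τ, h1, h2, h3⟩ := ih
      set b := τ.symm y with hb
      have hby : τ b = y := by simp [hb]
      have hbP : ∀ i, i ≤ k → b ≠ P i := by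
        intro i hi h
        rcases Nat.eq_zero_or_pos i with rfl | hi0
        · rw [← h, hby] at h2
          rw [← h2] at hstep
          exact hstep.1.ne rfl
        · rw [h, h3 i hi0 hi] at hby
          exact hstep.2 i hi0 hi hby
      obtain ⟨τ', g1, g2, g3, g4⟩ := swap_adj (T := T) (Y := Y) (σ := τ) (hP3 b hbP)
        (by rw [h2, hby]; exact hstep.1)
      refine ⟨τ', h1.trans g1.reachable, by rw [g2, hby], fun i hi hi' => ?_⟩
      rw [g4 (P i) (fun h => by have := hPinj _ _ hi' hj h; omega) (hbP i hi').symm]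
      exact h3 i hi hi'
  | succ j ih =>
    intro hj σ y hy
    have h := path (j + 1) hj σ y hy
    clear hy
    induction h with
    | refl => exact ⟨σ, SimpleGraph.Reachable.refl _, rfl, fun _ _ _ => rfl⟩
    | @tail y' y _ hstep ih' =>
      obtain ⟨τ, h1, h2, h3⟩ := ih'
      obtain ⟨ρ, e1, e2, e3⟩ := ih (by omega) τ y (by
        intro i hi hi'
        rcases Nat.lt_or_ge (j + 1) i with h' | h'
        · rw [h3 i h' hi']
          exact hstep.2 i h' hi'
        · obtain rfl : i = j + 1 := by omega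
          rw [h2]
          exact hstep.1.ne)
      obtain ⟨τ', g1, g2, g3, g4⟩ := swap_adj (T := T) (Y := Y) (σ := ρ) (hP2 j (by omega))
        (by rw [e2, e3 (j + 1) (by omega) hj, h2]; exact hstep.1.symm)
      refine ⟨τ', (h1.trans e1).trans g1.reachable, by rw [g3, e2], fun i hi hi' => ?_⟩
      rw [g4 (P i) (fun h => by have := hPinj _ _ hi' (by omega) h; omega)
        (fun h => by have := hPinj _ _ hi' hj h; omega), e3 i (by omega) hi']
      exact h3 i hi hi'

end General

section Broom

/-- The parent of the vertex `i` in the broom with handle `0, 1, …, k`. -/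
def par (k i : ℕ) : ℕ := if i ≤ k then i - 1 else 0

/-- The broom on `n` vertices: the path `0, 1, …, k`, and all other vertices joined to `0`. -/
def broom (n k : ℕ) : SimpleGraph (Fin n) where
  Adj i j := i ≠ j ∧ (i.val = par k j.val ∨ j.val = par k i.val)
  symm := ⟨fun _ _ h => ⟨h.1.symm, h.2.symm⟩⟩
  loopless := ⟨fun _ h => h.1 rfl⟩

theorem par_lt {k i : ℕ} (hi : 0 < i) : par k i < i := by
  unfold par
  split <;> omega

theorem par_le (k i : ℕ) : par k i ≤ i := by
  unfold par
  split <;> omega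

theorem broom_isTree {n k : ℕ} (hn : 0 < n) : (broom n k).IsTree := by
  have hreach : ∀ m : ℕ, ∀ hm : m < n, (broom n k).Reachable ⟨m, hm⟩ ⟨0, hn⟩ := by
    intro m
    induction m using Nat.strong_induction_on with
    | _ m ih =>
      intro hm
      rcases Nat.eq_zero_or_pos m with rfl | h0
      · exact SimpleGraph.Reachable.refl _
      · have h1 := par_lt (k := k) h0
        have h2 : (broom n k).Adj ⟨m, hm⟩ ⟨par k m, by omega⟩ := by
          refine ⟨?_, Or.inr rfl⟩
          intro h
          have := congrArg Fin.val h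
          simp only at this
          omega
        exact h2.reachable.trans (ih _ h1 (by omega))
  have hconn : (broom n k).Connected := by
    refine (SimpleGraph.connected_iff_exists_forall_reachable _).2 ⟨⟨0, hn⟩, fun w => ?_⟩
    exact (hreach w.val w.isLt).symm
  rw [SimpleGraph.isTree_iff_connected_and_card]
  refine ⟨hconn, ?_⟩
  have hge := hconn.card_vert_le_card_edgeSet_add_one
  have hle : Nat.card (broom n k).edgeSet ≤ n - 1 := by
    let q : Fin n → Fin n := fun b => ⟨par k b.val, (par_le k b.val).trans_lt b.isLt⟩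
    have hq : ∀ b : {b : Fin n | b ≠ ⟨0, hn⟩}, s(q b.1, b.1) ∈ (broom n k).edgeSet := by
      rintro ⟨b, hb⟩
      have h0 : 0 < b.val := by
        rcases Nat.eq_zero_or_pos b.val with h | h
        · exact absurd (Fin.ext h) hb
        · exact h
      refine ⟨?_, Or.inl rfl⟩
      intro h
      have h1 : par k b.val = b.val := congrArg Fin.val h
      have h2 := par_lt (k := k) h0
      omega
    have hsurj : Function.Surjective
        (fun b : {b : Fin n | b ≠ ⟨0, hn⟩} => (⟨s(q b.1, b.1), hq b⟩ : (broom n k).edgeSet)) := by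
      rintro ⟨e, he⟩
      induction e using Sym2.ind with
      | _ a b =>
        have hab : (broom n k).Adj a b := he
        obtain ⟨hne, h | h⟩ := hab
        · refine ⟨⟨b, ?_⟩, ?_⟩
          · rintro rfl
            apply hne
            apply Fin.ext
            rw [h]
            simp [par]
          · apply Subtype.ext
            have : q b = a := Fin.ext h.symm
            simp only [this]
        · refine ⟨⟨a, ?_⟩, ?_⟩
          · rintro rfl
            apply hne
            apply Fin.ext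
            rw [h]
            simp [par]
          · apply Subtype.ext
            have : q a = b := Fin.ext h.symm
            simp only [this]
            exact Sym2.eq_swap
    have h1 := Nat.card_le_card_of_surjective _ hsurj
    rw [Nat.card_eq_fintype_card (α := {b : Fin n | b ≠ ⟨0, hn⟩}), Set.card_ne_eq,
      Fintype.card_fin] at h1
    exact h1
  rw [Nat.card_eq_fintype_card (α := Fin n), Fintype.card_fin] at hge ⊢
  omega

end Broom

section Plane

variable {p : ℕ} [Fact p.Prime]

/-- Points and non-vertical lines `y = m x + b` of the affine plane over `ZMod p`. -/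
abbrev PL (p : ℕ) : Type := (ZMod p × ZMod p) ⊕ (ZMod p × ZMod p)

/-- The incidence graph. -/
def inc (p : ℕ) : SimpleGraph (PL p) where
  Adj u v := (∃ P L : ZMod p × ZMod p, P.2 = L.1 * P.1 + L.2 ∧
    ((u = Sum.inl P ∧ v = Sum.inr L) ∨ (u = Sum.inr L ∧ v = Sum.inl P)))
  symm := ⟨by
    rintro u v ⟨P, L, h, h' | h'⟩
    · exact ⟨P, L, h, Or.inr ⟨h'.2, h'.1⟩⟩
    · exact ⟨P, L, h, Or.inl ⟨h'.2, h'.1⟩⟩⟩
  loopless := ⟨by
    rintro u ⟨P, L, h, h' | h'⟩
    · exact absurd (h'.1.symm.trans h'.2) (by simp)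
    · exact absurd (h'.1.symm.trans h'.2) (by simp)⟩

theorem inc_lr {P L : ZMod p × ZMod p} :
    (inc p).Adj (Sum.inl P) (Sum.inr L) ↔ P.2 = L.1 * P.1 + L.2 := by
  constructor
  · rintro ⟨P', L', h, h' | h'⟩
    · obtain ⟨h1, h2⟩ := h'
      rw [Sum.inl.inj h1, Sum.inr.inj h2]
      exact h
    · exact absurd h'.1 (by simp)
  · intro h
    exact ⟨P, L, h, Or.inl ⟨rfl, rfl⟩⟩

theorem inc_rl {P L : ZMod p × ZMod p} :
    (inc p).Adj (Sum.inr L) (Sum.inl P) ↔ P.2 = L.1 * P.1 + L.2 := by
  rw [SimpleGraph.adj_comm]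
  exact inc_lr

omit [Fact p.Prime] in
theorem inc_ll {P Q : ZMod p × ZMod p} : ¬ (inc p).Adj (Sum.inl P) (Sum.inl Q) := by
  rintro ⟨P', L', h, h' | h'⟩
  · exact absurd h'.2 (by simp)
  · exact absurd h'.1 (by simp)

omit [Fact p.Prime] in
theorem inc_rr {P Q : ZMod p × ZMod p} : ¬ (inc p).Adj (Sum.inr P) (Sum.inr Q) := by
  rintro ⟨P', L', h, h' | h'⟩
  · exact absurd h'.1 (by simp)
  · exact absurd h'.2 (by simp)

omit [Fact p.Prime] in
theorem inc_color (u v : PL p) (h : (inc p).Adj u v) : Sum.isLeft u ≠ Sum.isLeft v := by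
  rcases u with u | u <;> rcases v with v | v
  · exact absurd h inc_ll
  · simp
  · simp
  · exact absurd h inc_rr

/-- Two different points lie on at most one line. -/
theorem two_points {P Q L M : ZMod p × ZMod p} (h1 : P.2 = L.1 * P.1 + L.2)
    (h2 : Q.2 = L.1 * Q.1 + L.2) (h3 : P.2 = M.1 * P.1 + M.2) (h4 : Q.2 = M.1 * Q.1 + M.2) :
    P = Q ∨ L = M := by
  have e : (L.1 - M.1) * (P.1 - Q.1) = 0 := by linear_combination (-1) * h1 + h2 + h3 - h4
  rcases mul_eq_zero.1 e with h | h
  · right
    have h5 : L.1 = M.1 := sub_eq_zero.1 h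
    refine Prod.ext h5 ?_
    rw [h5] at h1
    linear_combination h3 - h1
  · left
    have h5 : P.1 = Q.1 := sub_eq_zero.1 h
    refine Prod.ext h5 ?_
    rw [h1, h2, h5]

theorem inc_c4 (a b c d : PL p) (hac : a ≠ c) (hbd : b ≠ d) (h1 : (inc p).Adj a b)
    (h2 : (inc p).Adj b c) (h3 : (inc p).Adj c d) : ¬ (inc p).Adj d a := by
  intro h4
  rcases a with a | a <;> rcases b with b | b <;> rcases c with c | c <;> rcases d with d | d <;>
    first
    | exact absurd h1 inc_ll
    | exact absurd h1 inc_rr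
    | exact absurd h2 inc_ll
    | exact absurd h2 inc_rr
    | exact absurd h3 inc_ll
    | exact absurd h3 inc_rr
    | skip
  · rw [inc_lr] at h1 h3
    rw [inc_rl] at h2 h4
    rcases two_points h1 h2 h4 h3 with h | h
    · exact hac (congrArg _ h)
    · exact hbd (congrArg _ h)
  · rw [inc_rl] at h1 h3
    rw [inc_lr] at h2 h4
    rcases two_points h1 h4 h2 h3 with h | h
    · exact hbd (congrArg _ h)
    · exact hac (congrArg _ h)

open Classical in
/-- The incidence graph stays connected when fewer than `(p - 1) / 2` vertices are removed. -/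
theorem inc_conn {k : ℕ} (hk : 2 * k + 1 < p) (O : Finset (PL p)) (hO : O.card ≤ k)
    (x y : PL p) (hx : x ∉ O) (hy : y ∉ O) :
    Relation.ReflTransGen (fun a b => (inc p).Adj a b ∧ b ∉ O) x y := by
  -- few elements are bad
  have few : ∀ (f : ZMod p → PL p), Function.Injective f →
      (Finset.univ.filter fun m => f m ∈ O).card ≤ k := by
    intro f hf
    refine le_trans ?_ hO
    refine Finset.card_le_card_of_injOn f ?_ (hf.injOn)
    intro m hm
    simpa using hm
  have cardU : (Finset.univ : Finset (ZMod p)).card = p := by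
    rw [Finset.card_univ, ZMod.card]
  -- two points
  have pts : ∀ P P' : ZMod p × ZMod p, Sum.inl P ∉ O → Sum.inl P' ∉ O →
      Relation.ReflTransGen (fun a b => (inc p).Adj a b ∧ b ∉ O) (Sum.inl P) (Sum.inl P') := by
    intro P P' hP hP'
    -- a line through `P`
    obtain ⟨m, hm⟩ : ∃ m : ZMod p, (Sum.inr (m, P.2 - m * P.1) : PL p) ∉ O := by
      by_contra hcon
      push Not at hcon
      have h1 := few (fun m => Sum.inr (m, P.2 - m * P.1)) (by
        intro a b h
        exact (Prod.mk.inj (Sum.inr.inj h)).1)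
      rw [Finset.filter_true_of_mem (fun m _ => hcon m), cardU] at h1
      omega
    have hPL : (inc p).Adj (Sum.inl P) (Sum.inr (m, P.2 - m * P.1)) := by
      rw [inc_lr]
      ring
    by_cases hon : P'.2 = m * P'.1 + (P.2 - m * P.1)
    · refine Relation.ReflTransGen.tail (Relation.ReflTransGen.single ⟨hPL, hm⟩) ⟨?_, hP'⟩
      rw [inc_rl]
      exact hon
    · -- the intersection point with the line of slope `m'` through `P'`
      set b := P.2 - m * P.1 with hb
      let X : ZMod p → ZMod p := fun m' => ((P'.2 - m' * P'.1) - b) / (m - m')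
      let Q : ZMod p → PL p := fun m' => Sum.inl (X m', m * X m' + b)
      let L : ZMod p → PL p := fun m' => Sum.inr (m', P'.2 - m' * P'.1)
      have hX : ∀ m', m' ≠ m → m * X m' + b = m' * X m' + (P'.2 - m' * P'.1) := by
        intro m' h
        have h0 : m - m' ≠ 0 := sub_ne_zero.2 (Ne.symm h)
        have : (m - m') * X m' = (P'.2 - m' * P'.1) - b := by
          simp only [X]
          field_simp
        linear_combination this
      have h1 := few L (by
        intro a c h
        exact (Prod.mk.inj (Sum.inr.inj h)).1)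
      have h2 : (Finset.univ.filter fun m' => m' ≠ m ∧ Q m' ∈ O).card ≤ k := by
        refine le_trans ?_ hO
        refine Finset.card_le_card_of_injOn Q ?_ ?_
        · intro m' hm'
          simp only [Finset.coe_filter, Finset.mem_univ, true_and, Set.mem_ofPred_eq] at hm'
          exact hm'.2
        · intro a ha c hc hac
          simp only [Finset.coe_filter, Finset.mem_univ, true_and, Set.mem_ofPred_eq] at ha hc
          by_contra hne
          have e1 : X a = X c := (Prod.mk.inj (Sum.inl.inj hac)).1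
          have e2 := hX a ha.1
          have e3 := hX c hc.1
          rw [← e1] at e3
          have e4 : (a - c) * (X a - P'.1) = 0 := by linear_combination e3 - e2
          rcases mul_eq_zero.1 e4 with h | h
          · exact hne (sub_eq_zero.1 h)
          · have h5 : X a = P'.1 := sub_eq_zero.1 h
            apply hon
            rw [h5] at e2
            linear_combination -e2
      obtain ⟨m', hm1, hm2, hm3⟩ : ∃ m', m' ≠ m ∧ L m' ∉ O ∧ Q m' ∉ O := by
        by_contra hcon
        push Not at hcon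
        have hsub : (Finset.univ : Finset (ZMod p)) ⊆ {m} ∪ ((Finset.univ.filter fun m' => L m' ∈ O) ∪
            (Finset.univ.filter fun m' => m' ≠ m ∧ Q m' ∈ O)) := by
          intro m' _
          simp only [Finset.mem_union, Finset.mem_singleton, Finset.mem_filter, Finset.mem_univ,
            true_and]
          by_cases e1 : m' = m
          · exact Or.inl e1
          by_cases e2 : L m' ∈ O
          · exact Or.inr (Or.inl e2)
          · exact Or.inr (Or.inr ⟨e1, hcon m' e1 e2⟩)
        have h3 := Finset.card_le_card hsub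
        have h4 := Finset.card_union_le ({m} : Finset (ZMod p))
          ((Finset.univ.filter fun m' => L m' ∈ O) ∪
            (Finset.univ.filter fun m' => m' ≠ m ∧ Q m' ∈ O))
        have h5 := Finset.card_union_le (Finset.univ.filter fun m' => L m' ∈ O)
            (Finset.univ.filter fun m' => m' ≠ m ∧ Q m' ∈ O)
        rw [cardU] at h3
        rw [Finset.card_singleton] at h4
        omega
      have s1 : (inc p).Adj (Sum.inr (m, b)) (Q m') := by
        simp only [Q]
        rw [inc_rl]
      have s2 : (inc p).Adj (Q m') (L m') := by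
        simp only [Q, L]
        rw [inc_lr]
        exact hX m' hm1
      have s3 : (inc p).Adj (L m') (Sum.inl P') := by
        simp only [L]
        rw [inc_rl]
        ring
      exact (((Relation.ReflTransGen.single ⟨hPL, hm⟩).tail ⟨s1, hm3⟩).tail ⟨s2, hm2⟩).tail
        ⟨s3, hP'⟩
  -- a point on every line
  have ptl : ∀ L : ZMod p × ZMod p, ∃ P : ZMod p × ZMod p, Sum.inl P ∉ O ∧
      P.2 = L.1 * P.1 + L.2 := by
    intro L
    by_contra hcon
    push Not at hcon
    have h1 := few (fun a => Sum.inl (a, L.1 * a + L.2)) (by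
      intro a b h
      exact (Prod.mk.inj (Sum.inl.inj h)).1)
    rw [Finset.filter_true_of_mem, cardU] at h1
    · omega
    · intro a _
      by_contra h
      exact hcon (a, L.1 * a + L.2) h rfl
  rcases x with P | L <;> rcases y with P' | L'
  · exact pts P P' hx hy
  · obtain ⟨Q, h1, h2⟩ := ptl L'
    exact (pts P Q hx h1).tail ⟨inc_lr.2 h2, hy⟩
  · obtain ⟨Q, h1, h2⟩ := ptl L
    exact Relation.ReflTransGen.head ⟨inc_rl.2 h2, h1⟩ (pts Q P' h1 hy)
  · obtain ⟨Q, h1, h2⟩ := ptl L
    obtain ⟨Q', h3, h4⟩ := ptl L'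
    exact Relation.ReflTransGen.head ⟨inc_rl.2 h2, h1⟩ ((pts Q Q' h1 h3).tail ⟨inc_lr.2 h4, hy⟩)

end Plane

/-- The component has large diameter. -/
theorem main {p k : ℕ} (hp : p.Prime) (hk : 2 * k + 1 < p) :
    ∃ T Y : SimpleGraph (Fin (2 * p ^ 2)), T.IsTree ∧
      ∃ σ τ : Fin (2 * p ^ 2) ≃ Fin (2 * p ^ 2), (FS T Y).Reachable σ τ ∧
        2 ^ k ≤ (FS T Y).dist σ τ := by
  classical
  have : Fact p.Prime := ⟨hp⟩
  have hp2 := hp.two_le
  have hbig : p ≤ 2 * p ^ 2 := by nlinarith
  have hcard : Fintype.card (PL p) = 2 * p ^ 2 := by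
    simp only [PL, Fintype.card_sum, Fintype.card_prod, ZMod.card]
    ring
  let e : PL p ≃ Fin (2 * p ^ 2) := Fintype.equivFinOfCardEq hcard
  let Y : SimpleGraph (Fin (2 * p ^ 2)) := (inc p).comap e.symm
  have hYadj : ∀ a b, Y.Adj a b ↔ (inc p).Adj (e.symm a) (e.symm b) := fun a b => Iff.rfl
  have hn : 0 < 2 * p ^ 2 := by positivity
  let P : ℕ → Fin (2 * p ^ 2) := fun j => if h : j ≤ k then ⟨j, by omega⟩ else ⟨0, hn⟩
  have hPv : ∀ j, j ≤ k → (P j).val = j := fun j hj => by simp [P, hj]
  have hPinj : ∀ i j, i ≤ k → j ≤ k → P i = P j → i = j := by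
    intro i j hi hj h
    rw [← hPv i hi, ← hPv j hj, h]
  have hconn : ∀ O : Finset (Fin (2 * p ^ 2)), O.card ≤ k → ∀ x y, x ∉ O → y ∉ O →
      Relation.ReflTransGen (fun a b => Y.Adj a b ∧ b ∉ O) x y := by
    intro O hO x y hx hy
    have h := inc_conn hk (O.map e.symm.toEmbedding) (by simpa using hO) (e.symm x) (e.symm y)
      (by simpa using hx) (by simpa using hy)
    have h2 : Relation.ReflTransGen (fun a b => Y.Adj a b ∧ b ∉ O) (e (e.symm x))
        (e (e.symm y)) := by
      refine Relation.ReflTransGen.lift e ?_ _ _ h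
      rintro a b ⟨h3, h4⟩
      refine ⟨?_, ?_⟩
      · rw [hYadj]
        simpa using h3
      · intro h5
        apply h4
        rw [Finset.mem_map]
        exact ⟨e b, h5, by simp⟩
    simpa using h2
  -- a far away position
  let σ : Fin (2 * p ^ 2) ≃ Fin (2 * p ^ 2) := Equiv.refl _
  obtain ⟨y, hy1, hy2⟩ : ∃ y, σ (P k) ≠ y ∧ ¬ Y.Adj (σ (P k)) y := by
    have : Nontrivial (ZMod p) := inferInstance
    rcases hu : e.symm (σ (P k)) with A | A
    · refine ⟨e (Sum.inl (A.1 + 1, A.2)), ?_, ?_⟩
      · intro h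
        rw [h, Equiv.symm_apply_apply] at hu
        have := congrArg Prod.fst (Sum.inl.inj hu)
        simp at this
      · rw [hYadj, hu, Equiv.symm_apply_apply]
        exact inc_ll
    · refine ⟨e (Sum.inr (A.1 + 1, A.2)), ?_, ?_⟩
      · intro h
        rw [h, Equiv.symm_apply_apply] at hu
        have := congrArg Prod.fst (Sum.inr.inj hu)
        simp at this
      · rw [hYadj, hu, Equiv.symm_apply_apply]
        exact inc_rr
  have hP1 : ∀ j, 1 ≤ j → j ≤ k → ∀ b, (broom (2 * p ^ 2) k).Adj (P j) b →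
      b = P (j - 1) ∨ (j + 1 ≤ k ∧ b = P (j + 1)) := by
    rintro j hj1 hj2 b ⟨hne, h | h⟩
    · right
      rw [hPv j hj2] at h
      unfold par at h
      split at h
      · rename_i hbk
        refine ⟨by omega, Fin.ext ?_⟩
        rw [hPv _ (by omega)]
        omega
      · omega
    · left
      rw [hPv j hj2] at h
      apply Fin.ext
      rw [hPv _ (by omega), h]
      simp [par, hj2]
  have hP2 : ∀ j, j < k → (broom (2 * p ^ 2) k).Adj (P j) (P (j + 1)) := by
    intro j hj
    refine ⟨fun h => ?_, Or.inl ?_⟩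
    · have := hPinj _ _ (by omega) (by omega) h
      omega
    · rw [hPv _ (by omega), hPv _ (by omega)]
      simp only [par]
      rw [if_pos (by omega)]
      omega
  have hP3 : ∀ v, (∀ i, i ≤ k → v ≠ P i) → (broom (2 * p ^ 2) k).Adj (P 0) v := by
    intro v hv
    have hvk : k < v.val := by
      by_contra h
      exact hv v.val (by omega) (Fin.ext (by rw [hPv _ (by omega)]))
    refine ⟨(hv 0 (by omega)).symm, Or.inl ?_⟩
    rw [hPv 0 (by omega)]
    unfold par
    rw [if_neg (by omega)]
  obtain ⟨τ, hr, ht, -⟩ := reach (T := broom (2 * p ^ 2) k) (Y := Y) k P hPinj hP2 hP3 hconn k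
    le_rfl σ y (fun i h1 h2 => by omega)
  refine ⟨broom (2 * p ^ 2) k, Y, broom_isTree hn, σ, τ, hr, ?_⟩
  obtain ⟨w, hw⟩ := hr.exists_walk_length_eq_dist
  rw [← hw]
  have := lower (T := broom (2 * p ^ 2) k) (Y := Y) (fun a => Sum.isLeft (e.symm a))
    (fun a b h => inc_color _ _ h)
    (fun a b c d h1 h2 h3 h4 h5 h6 => inc_c4 _ _ _ _ (fun h => h1 (e.symm.injective h))
      (fun h => h2 (e.symm.injective h)) h3 h4 h5 h6) k P hP1 k le_rfl
    (fun t => w.getVert t) 0 w.length (Nat.zero_le _)
    (fun t _ ht => w.adj_getVert_succ ht) (fun h => absurd h (lt_irrefl _))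
    (by
      show w.getVert 0 (P k) ≠ w.getVert w.length (P k)
      rw [SimpleGraph.Walk.getVert_zero, SimpleGraph.Walk.getVert_length, ht]
      exact hy1)
    (by
      show ¬ Y.Adj (w.getVert 0 (P k)) (w.getVert w.length (P k))
      rw [SimpleGraph.Walk.getVert_zero, SimpleGraph.Walk.getVert_length, ht]
      exact hy2)
  simpa using this

/-- Exponential functions beat polynomials. -/
theorem eventually_large (M : ℕ) : ∃ N : ℕ, ∀ k, N ≤ k → (2 * (2 * k + 3) ^ 2) ^ M < 2 ^ k := by
  have h := tendsto_pow_const_div_const_pow_of_one_lt (2 * M) (r := (2 : ℝ)) (by norm_num)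
  have h1 : ∀ᶠ k : ℕ in Filter.atTop, (k : ℝ) ^ (2 * M) / 2 ^ k < 1 / 50 ^ M :=
    h.eventually_lt_const (by positivity)
  obtain ⟨N, hN⟩ := Filter.eventually_atTop.1 h1
  refine ⟨max N 1, fun k hk => ?_⟩
  have hk1 : 1 ≤ k := le_trans (le_max_right _ _) hk
  have h2 := hN k (le_trans (le_max_left _ _) hk)
  rw [div_lt_div_iff₀ (by positivity) (by positivity), one_mul] at h2
  have h3 : 50 ^ M * k ^ (2 * M) < 2 ^ k := by
    have : ((50 ^ M * k ^ (2 * M) : ℕ) : ℝ) < ((2 ^ k : ℕ) : ℝ) := by
      push_cast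
      rw [mul_comm]
      exact h2
    exact_mod_cast this
  refine lt_of_le_of_lt ?_ h3
  rw [pow_mul, ← mul_pow]
  apply Nat.pow_le_pow_left
  nlinarith

/-- **Diameters of friends-and-strangers graphs of trees are not polynomially bounded.** For every
real `K` there are `n ≥ 2`, a tree `T` and a graph `Y` on `n` vertices such that some component of
`FS(T, Y)` has two elements at distance greater than `n ^ K`. Quantitatively, for every prime `p`
this happens for `n = 2 p ^ 2` with the bound `2 ^ ((p - 2) / 2)`. -/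
theorem result :
    (∀ K : ℝ, ∃ n : ℕ, 2 ≤ n ∧ ∃ T Y : SimpleGraph (Fin n), T.IsTree ∧
      ∃ σ τ : Fin n ≃ Fin n, (FS T Y).Reachable σ τ ∧ (n : ℝ) ^ K < ((FS T Y).dist σ τ : ℝ)) ∧
    (∀ p : ℕ, p.Prime → ∃ T Y : SimpleGraph (Fin (2 * p ^ 2)), T.IsTree ∧
      ∃ σ τ : Fin (2 * p ^ 2) ≃ Fin (2 * p ^ 2), (FS T Y).Reachable σ τ ∧
        2 ^ ((p - 2) / 2) ≤ (FS T Y).dist σ τ) := by
  refine ⟨fun K => ?_, fun p hp => main hp (by have := hp.two_le; omega)⟩
  obtain ⟨N, hN⟩ := eventually_large ⌈K⌉₊
  obtain ⟨p, hpN, hp⟩ := Nat.exists_infinite_primes (2 * N + 3)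
  have hp2 := hp.two_le
  obtain ⟨T, Y, hT, σ, τ, hr, hd⟩ := main (p := p) (k := (p - 2) / 2) hp (by omega)
  have hn : 2 ≤ 2 * p ^ 2 := by nlinarith
  refine ⟨2 * p ^ 2, hn, T, Y, hT, σ, τ, hr, ?_⟩
  have h1 : (2 * p ^ 2) ^ ⌈K⌉₊ < 2 ^ ((p - 2) / 2) := by
    refine lt_of_le_of_lt ?_ (hN ((p - 2) / 2) (by omega))
    apply Nat.pow_le_pow_left
    have h2 : p ≤ 2 * ((p - 2) / 2) + 3 := by omega
    nlinarith
  have h3 : ((2 * p ^ 2 : ℕ) : ℝ) ^ K ≤ (((2 * p ^ 2) ^ ⌈K⌉₊ : ℕ) : ℝ) := by
    rw [Nat.cast_pow, ← Real.rpow_natCast]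
    apply Real.rpow_le_rpow_of_exponent_le
    · exact_mod_cast (by omega : 1 ≤ 2 * p ^ 2)
    · exact Nat.le_ceil K
  refine lt_of_le_of_lt h3 ?_
  exact_mod_cast lt_of_lt_of_le h1 hd

end Pool.Agent.Results.MP_5b8c2d_co.BroomDiameters
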